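import Pool.Agent.Lib.MP_57deef_al.TFin

set_option autoImplicit false

namespace Pool.Agent.Results.MP_57deef_al.TwoEnded

open Pool.Agent.Lib.MP_57deef_al

/-- Thompson's group `F` is not integrable. More generally, a subgroup of finite index of `F`, or
any two-ended group, is never a normal subgroup with solvable or amenable quotient that lies in the
derived subgroup of the ambient group. -/
theorem result (H : Type*) [Group H] :
    IsEmpty (commutator H ≃* thompsonF) ∧
    ∀ G : Subgroup (unitInterval ≃ₜ unitInterval),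
      (G ≤ thompsonF ∧ G.relIndex thompsonF ≠ 0) ∨ TwoEnded 0 1 G →
      ∀ (N : Subgroup H) [N.Normal], Nonempty (N ≃* G) →
        Group.IsSolvable (H ⧸ N) ∨ Amenable (H ⧸ N) →
          (∃ φ : H →* Multiplicative ℝ, ∃ n ∈ N, φ n ≠ 1) ∧ ¬ N ≤ commutator H := by
  refine ⟨⟨main⟩, fun G hG N _ ⟨e⟩ hq => ?_⟩
  have hG' : TwoEnded 0 1 G := by
    rcases hG with ⟨h1, h2⟩ | hG
    · have : (G.subgroupOf thompsonF).FiniteIndex := ⟨h2⟩
      have h3 := twoEnded_of_finiteIndex (G.subgroupOf thompsonF)
      rwa [Subgroup.map_subgroupOf_eq_of_le h1] at h3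
    · exact hG
  obtain ⟨φ, n, hn, hφ⟩ := hG'.exists_hom N e hq
  exact ⟨⟨φ, n, hn, hφ⟩, fun h => hφ (Abelianization.commutator_subset_ker φ (h hn))⟩

end Pool.Agent.Results.MP_57deef_al.TwoEnded
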